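import Mathlib
import Pool.Agent.H14.KnApp

set_option autoImplicit false

namespace Pool.Agent.Results.MP_33eb55_co.Exact

open Finset Pool.Agent.H14.KnApp

/-- `χ_±(ℤ_n, [0,s]) = n / 3 + 1` for odd `n` divisible by `3` and `s ≥ 3`. -/
theorem result (n s : ℕ) (hn : Odd n) (h3 : 3 ∣ n) (hs : 3 ≤ s) :
    IsLeast {m : ℕ | ∀ A : Finset (ZMod n), A.card = m → Spanning s A} (n / 3 + 1) := by
  have : NeZero n := ⟨by rintro rfl; simp at hn⟩
  constructor
  · intro A hA
    by_contra hc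
    obtain ⟨d, k, m, e, h2, hk, h4, h5, h6⟩ := nonspan s (by omega) A hc
    have h7 := Nat.odd_iff.1 (h6 hn)
    have h8 : d % 2 = 1 := Nat.odd_iff.1 (Nat.odd_mul.1 (e ▸ hn)).1
    have h9 : 3 * k ≤ d + 1 := by
      obtain ⟨k, rfl⟩ : ∃ j, k = j + 1 := ⟨k - 1, by omega⟩
      nlinarith
    have h10 := Nat.mul_le_mul_right m (show 3 * k ≤ d by omega)
    rw [mul_assoc] at h10
    omega
  · intro m hm
    by_contra hc
    obtain ⟨A, h1, h2⟩ := exists_nonspan (n := n) s 3 0 h3 (by omega) (by omega)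
    obtain ⟨B, hB, h4⟩ := exists_subset_card_eq (s := A) (n := m) (by omega)
    exact h2 B hB (hm B h4)

end Pool.Agent.Results.MP_33eb55_co.Exact
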